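import Pool.Agent.H27.MS.NON
import Pool.Agent.H47.MS.Base

/-!
Assembly.
-/

namespace MS

open TopologicalSpace MeasureTheory Filter Topology

namespace ASMaux

/-- the values of the points of a minimal subshift are bounded -/
theorem bdd (X : NC) (hX : IsMinSubshift X) : ∃ N : ℕ, ∀ x ∈ X, ∀ i, x i < N := by
  have hc : IsCompact ((fun x : ℤ → ℕ => x 0) '' (X : Set (ℤ → ℕ))) :=
    X.isCompact.image (continuous_apply 0)
  obtain ⟨N, hN⟩ := hc.bddAbove
  refine ⟨N + 1, fun x hx i => ?_⟩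
  have h1 : sh i x ∈ (X : Set (ℤ → ℕ)) := H47.inv_sh hX.1 hx i
  have h2 := hN ⟨sh i x, h1, rfl⟩
  simp only [sh, zero_add] at h2
  omega

theorem conj_iff (hCHL : CHLStmt) (X Y : Z0) :
    Conj (X : NC) (Y : NC) ↔ ∃ f g r, IsConj (X : NC) (Y : NC) f g r :=
  hCHL.1 _ _ X.2.1 Y.2.1

theorem equiv (hCHL : CHLStmt) (hTRA : TRAStmt) :
    Equivalence fun X Y : Z0 => Conj (X : NC) (Y : NC) where
  refl X := (conj_iff hCHL X X).2 ⟨id, id, 0, fun _ h => h, fun _ h => h, fun _ _ => rfl,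
    fun _ _ => rfl, fun _ _ _ => rfl, fun _ _ _ => rfl,
    fun x _ x' _ i h => h i (by simp), fun x _ x' _ i h => h i (by simp)⟩
  symm := by
    intro X Y h
    obtain ⟨f, g, r, h⟩ := (conj_iff hCHL X Y).1 h
    exact (conj_iff hCHL Y X).2 ⟨g, f, r, hTRA.2.2.1 _ _ _ _ _ h⟩
  trans := by
    intro X Y Z h h'
    obtain ⟨f, g, r, h⟩ := (conj_iff hCHL X Y).1 h
    obtain ⟨f', g', r', h'⟩ := (conj_iff hCHL Y Z).1 h'
    exact (conj_iff hCHL X Z).2 ⟨_, _, _, hTRA.2.2.2 _ _ _ _ _ _ _ _ _ h h'⟩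

theorem diag : MeasurableSet {p : Z0 × Z0 | p.1 = p.2} := by
  have h : MeasurableSet {p : NC × NC | p.1 = p.2} := isClosed_diagonal.measurableSet
  have h2 : Measurable fun p : Z0 × Z0 => ((p.1 : NC), (p.2 : NC)) :=
    (measurable_subtype_coe.comp measurable_fst).prodMk
      (measurable_subtype_coe.comp measurable_snd)
  have : {p : Z0 × Z0 | p.1 = p.2} = (fun p : Z0 × Z0 => ((p.1 : NC), (p.2 : NC))) ⁻¹'
      {p : NC × NC | p.1 = p.2} := by
    ext p
    simp only [Set.mem_ofPred_eq, Set.mem_preimage]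
    exact Subtype.ext_iff
  rw [this]
  exact h2 h

/-- the Reiter functions on `Z0` -/
noncomputable def LL (N : ℕ) (X Y : Z0) : ℝ :=
  open Classical in
  if ∀ x ∈ (X : NC), ∀ i, x i < N then Rei N X Y else if X = Y then 1 else 0

theorem LL_meas (hMEA : MEAStmt) (N : ℕ) : Measurable fun p : Z0 × Z0 => LL N p.1 p.2 := by
  classical
  obtain ⟨h1, h2⟩ := hMEA N
  let S : Set (Z0 × Z0) := {p | ∀ x ∈ (p.1 : NC), ∀ i, x i < N}
  have hS : MeasurableSet S := (measurable_subtype_coe.comp measurable_fst) h1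
  refine measurable_of_restrict_of_restrict_compl hS ?_ ?_
  · have hm : Measurable fun p : S =>
        ((⟨(p.1.1 : NC), p.1.1.2.1, p.2⟩ :
          {X : NC // IsMinSubshift X ∧ ∀ x ∈ X, ∀ i, x i < N}), (p.1.2 : NC)) := by
      refine Measurable.prodMk ?_ ?_
      · exact Measurable.subtype_mk (measurable_subtype_coe.comp
          (measurable_fst.comp measurable_subtype_coe))
      · exact measurable_subtype_coe.comp (measurable_snd.comp measurable_subtype_coe)
    have h3 := h2.comp hm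
    have : S.domRestrict (fun p : Z0 × Z0 => LL N p.1 p.2) = fun p : S => Rei N p.1.1 p.1.2 := by
      funext p
      exact if_pos p.2
    rw [this]
    exact h3
  · have : Sᶜ.domRestrict (fun p : Z0 × Z0 => LL N p.1 p.2) =
        (fun p : Z0 × Z0 => if p ∈ {p : Z0 × Z0 | p.1 = p.2} then (1 : ℝ) else 0) ∘
          Subtype.val := by
      funext p
      exact if_neg p.2
    rw [this]
    exact (Measurable.ite diag measurable_const measurable_const).comp measurable_subtype_coe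

theorem pos_of_bdd {X : NC} {N : ℕ} (h : ∀ x ∈ X, ∀ i, x i < N) : 1 ≤ N := by
  obtain ⟨x, hx⟩ := X.nonempty
  have := h x hx 0
  omega

theorem rei_z0 (hTRA : TRAStmt) (hREI : REIStmt) {N : ℕ} (X : Z0)
    (h : ∀ x ∈ (X : NC), ∀ i, x i < N) (Y : NC) (hY : ¬ (IsMinSubshift Y ∧ ZeroEntropy Y)) :
    Rei N X Y = 0 := by
  by_contra hne
  obtain ⟨f, g, r, hc⟩ := (hREI N X (pos_of_bdd h) X.2.1 h).2.1 Y hne
  exact hY ⟨hTRA.1 _ _ _ _ _ hc X.2.1, hTRA.2.1 _ _ _ _ _ hc X.2.1 X.2.2⟩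

theorem amenable (hCHL : CHLStmt) (hTRA : TRAStmt) (hREI : REIStmt) (hINV : INVStmt)
    (hMEA : MEAStmt) : Amenable fun X Y : Z0 => Conj (X : NC) (Y : NC) := by
  classical
  refine ⟨LL, LL_meas hMEA, ?_, ?_, ?_, ?_⟩
  · intro N X Y
    simp only [LL]
    split_ifs with h h'
    · exact (hREI N X (pos_of_bdd h) X.2.1 h).1 _
    · exact zero_le_one
    · exact le_rfl
  · intro N X Y hXY
    simp only [LL]
    split_ifs with h h'
    · by_contra hne
      exact hXY ((conj_iff hCHL X Y).2 ((hREI N X (pos_of_bdd h) X.2.1 h).2.1 _ hne))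
    · exact absurd ((equiv hCHL hTRA).refl X) (by rw [h'] at hXY ⊢; exact hXY)
    · rfl
  · intro N X
    by_cases h : ∀ x ∈ (X : NC), ∀ i, x i < N
    · have h1 := (hREI N X (pos_of_bdd h) X.2.1 h).2.2
      have h2 : LL N X = (Rei N (X : NC)) ∘ (Subtype.val : Z0 → NC) := by
        funext Y
        simp only [LL, Function.comp]
        rw [if_pos h]
      rw [h2]
      refine (hasSum_subtype_iff_of_support_subset (s := {X : NC | IsMinSubshift X ∧
        ZeroEntropy X}) ?_).2 h1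
      intro Y hY
      by_contra hcon
      exact hY (rei_z0 hTRA hREI X h Y hcon)
    · have h2 : LL N X = fun Y => if X = Y then (1 : ℝ) else 0 := by
        funext Y
        simp only [LL]
        rw [if_neg h]
      rw [h2]
      have h3 : HasSum (fun Y : Z0 => if Y = X then (1 : ℝ) else 0) 1 := hasSum_ite_eq X 1
      simp only [eq_comm (a := X)]
      exact h3
  · intro X X' hXX
    obtain ⟨f, g, r, hc⟩ := (conj_iff hCHL X X').1 hXX
    obtain ⟨N1, hN1⟩ := bdd X X.2.1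
    obtain ⟨N2, hN2⟩ := bdd X' X'.2.1
    refine (hINV X X' f g r X.2.1 X.2.2 hc).congr' ?_
    filter_upwards [eventually_ge_atTop N1, eventually_ge_atTop N2] with N h1 h2
    have b1 : ∀ x ∈ (X : NC), ∀ i, x i < N := fun x hx i => (hN1 x hx i).trans_le h1
    have b2 : ∀ x ∈ (X' : NC), ∀ i, x i < N := fun x hx i => (hN2 x hx i).trans_le h2
    have h3 : (fun Y : Z0 => |LL N X Y - LL N X' Y|) =
        (fun Y : NC => |Rei N X Y - Rei N X' Y|) ∘ (Subtype.val : Z0 → NC) := by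
      funext Y
      simp only [LL, Function.comp]
      rw [if_pos b1, if_pos b2]
    rw [h3]
    symm
    refine tsum_subtype_eq_of_support_subset (f := fun Y : NC => |Rei N X Y - Rei N X' Y|)
      (s := {X : NC | IsMinSubshift X ∧ ZeroEntropy X}) ?_
    intro Y hY
    by_contra hcon
    apply hY
    simp only [rei_z0 hTRA hREI X b1 Y hcon, rei_z0 hTRA hREI X' b2 Y hcon, sub_zero, abs_zero]

end ASMaux

open ASMaux in
/-- ASM -/
theorem asm (hCHL : CHLStmt) (hTRA : TRAStmt) (hREI : REIStmt) (hINV : INVStmt)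
    (hMEA : MEAStmt) (hENU : ENUStmt) (hFRA : FRAStmt) (hPAR : PARStmt) :
    Amenable (fun X Y : Z0 => Conj (X : NC) (Y : NC)) ∧
    ∃ (A : Type) (_ : MeasurableSpace A) (_ : StandardBorelSpace A) (F : A → A → Prop),
      CBER F ∧ ¬ BorelReducible F (fun X Y : Z0 => Conj (X : NC) (Y : NC)) := by
  have ham := amenable hCHL hTRA hREI hINV hMEA
  refine ⟨ham, ?_⟩
  obtain ⟨A, mA, sA, μ, hμ, T, h1, hmul, hT, hfree⟩ := hFRA
  refine ⟨A, mA, sA, fun x y => ∃ γ, T γ x = y, ⟨?_, ?_, ?_⟩, ?_⟩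
  · refine ⟨fun x => ⟨1, h1 x⟩, ?_, ?_⟩
    · rintro x y ⟨γ, rfl⟩
      exact ⟨γ⁻¹, by rw [← hmul, inv_mul_cancel, h1]⟩
    · rintro x y z ⟨γ, rfl⟩ ⟨δ, rfl⟩
      exact ⟨δ * γ, hmul _ _ _⟩
  · have : {p : A × A | ∃ γ, T γ p.1 = p.2} = ⋃ γ, {p | T γ p.1 = p.2} := by
      ext p
      simp
    rw [this]
    exact MeasurableSet.iUnion fun γ =>
      measurableSet_eq_fun ((hT γ).measurable.comp measurable_fst) measurable_snd
  · intro x
    have : {y | ∃ γ, T γ x = y} = Set.range fun γ => T γ x := by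
      ext y
      simp
    rw [this]
    exact Set.countable_range _
  · exact non hPAR Z0 _ (equiv hCHL hTRA) diag hENU ham A μ T h1 hmul hT hfree

end MS
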