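import Pool.Agent.H27.MS.ASM
import Pool.Agent.H47.MS.Base
import Pool.Agent.H47.MS.Cod
import Pool.Agent.H65.MS.ENU
import Pool.Agent.H65.MS.INV
import Pool.Agent.H8.MS.MEA
import Pool.Agent.H17.MS.AVG
import Pool.Agent.H17.MS.PAR
import Pool.Agent.H17.MS.FRA
import Pool.Agent.H73.MS.CYL
import Pool.Agent.H73.MS.DEEP
import Pool.Agent.H73.MS.PSF
import Pool.Agent.H73.MS.PSI
import Pool.Agent.H73.MS.REI

/-!
All modules together.
-/

namespace MS

open MeasureTheory

theorem all : Amenable (fun X Y : Z0 => Conj X Y) ∧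
    ∃ (A : Type) (_ : MeasurableSpace A) (_ : StandardBorelSpace A) (F : A → A → Prop),
      CBER F ∧ ¬ BorelReducible F (fun X Y : Z0 => Conj X Y) := by
  have h1 : CHLStmt := chl
  have h2 : TRAStmt := tra
  have h3 : CODStmt := cod
  have h4 : VIEStmt := vie
  have h5 : PSFStmt := psf
  have h6 : PSIStmt := psi
  have h7 : CYLStmt := cyl'
  have h8 : DEEPStmt := deep
  have h9 : REIStmt := rei
  have h10 : INVStmt := inv h8 h6 h7 avg h2
  have h11 : MEAStmt := mea h4 h1 h3 h5
  have h12 : ENUStmt := enu h3 h1 h4 h2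
  exact asm h1 h2 h9 h10 h11 h12 fra par

end MS
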