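import Mathlib

/-!
Minimal subshifts as nonempty compact subsets of `ℕ^ℤ`, topological conjugacy, topological
entropy zero, amenability of a relation (Reiter functions).
-/

namespace MS

open TopologicalSpace MeasureTheory Filter Topology

/-- the left shift on `ℕ^ℤ` -/
def shift (x : ℤ → ℕ) : ℤ → ℕ := fun i => x (i + 1)

/-- `X` is a minimal subshift: a nonempty compact subset of `ℕ^ℤ`, invariant under the shift,
in which every orbit is dense -/
def IsMinSubshift (X : NonemptyCompacts (ℤ → ℕ)) : Prop :=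
  shift '' (X : Set (ℤ → ℕ)) = X ∧
    ∀ x ∈ X, (X : Set (ℤ → ℕ)) ⊆ closure {y | ∃ n : ℤ, ∀ i, y i = x (i + n)}

/-- the words of length `n` of `X` -/
def words (X : NonemptyCompacts (ℤ → ℕ)) (n : ℕ) : Set (Fin n → ℕ) :=
  {w | ∃ x ∈ X, ∀ i : Fin n, w i = x ((i : ℕ) : ℤ)}

/-- the topological entropy of `X` is zero: the number of words of length `n` grows
subexponentially -/
def ZeroEntropy (X : NonemptyCompacts (ℤ → ℕ)) : Prop :=
  Tendsto (fun n : ℕ => Real.log ((words X n).ncard : ℝ) / n) atTop (𝓝 0)

/-- topological conjugacy: there is a homeomorphism which commutes with the shift -/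
def Conj (X Y : NonemptyCompacts (ℤ → ℕ)) : Prop :=
  ∃ φ : (X : Set (ℤ → ℕ)) ≃ₜ (Y : Set (ℤ → ℕ)),
    ∀ x x' : (X : Set (ℤ → ℕ)), (x' : ℤ → ℕ) = shift x → (φ x' : ℤ → ℕ) = shift (φ x)

/-- the Borel sets of the Vietoris topology -/
instance instMeasurableSpaceNC : MeasurableSpace (NonemptyCompacts (ℤ → ℕ)) := borel _

instance instBorelSpaceNC : BorelSpace (NonemptyCompacts (ℤ → ℕ)) := ⟨rfl⟩

/-- the space of minimal subshifts of entropy zero -/
abbrev Z0 : Type := {X : NonemptyCompacts (ℤ → ℕ) // IsMinSubshift X ∧ ZeroEntropy X}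

/-- Amenability of a relation `E` on a measurable space `M` (Borel Reiter functions): there are
measurable functions `L n` on `M × M` such that every `L n x` is a probability distribution on
the class of `x`, and `‖L n x - L n x'‖₁ → 0` whenever `E x x'`. -/
def Amenable {M : Type} [MeasurableSpace M] (E : M → M → Prop) : Prop :=
  ∃ L : ℕ → M → M → ℝ,
    (∀ n, Measurable fun p : M × M => L n p.1 p.2) ∧
    (∀ n x y, 0 ≤ L n x y) ∧
    (∀ n x y, ¬ E x y → L n x y = 0) ∧
    (∀ n x, HasSum (L n x) 1) ∧
    ∀ x x', E x x' → Tendsto (fun n => ∑' y, |L n x y - L n x' y|) atTop (𝓝 0)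

/-- `F` is Borel reducible to `E` -/
def BorelReducible {A M : Type} [MeasurableSpace A] [MeasurableSpace M] (F : A → A → Prop)
    (E : M → M → Prop) : Prop :=
  ∃ θ : A → M, Measurable θ ∧ ∀ x y, F x y ↔ E (θ x) (θ y)

/-- `F` is a countable Borel equivalence relation on the measurable space `A` -/
structure CBER {A : Type} [MeasurableSpace A] (F : A → A → Prop) : Prop where
  equiv : Equivalence F
  borel : MeasurableSet {p : A × A | F p.1 p.2}
  countable : ∀ x, {y | F x y}.Countable

end MS
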