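import Pool.Agent.H27.MS.Stmts

/-!
A free measure preserving action of the free group is not Borel reducible to an amenable
relation: disintegration argument.
-/

namespace MS

open TopologicalSpace MeasureTheory Filter Topology
open scoped ENNReal

namespace NONaux

/-- sums over a class by enumeration -/
theorem tsum_first {M : Type} (e : ℕ → M) (G : M → ℝ≥0∞)
    (hG : ∀ s, (∀ k, e k ≠ s) → G s = 0) :
    (∑' k, open Classical in if ∀ j < k, e j ≠ e k then G (e k) else 0) = ∑' s, G s := by
  classical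
  have hinj : Function.Injective fun k : {k : ℕ | ∀ j < k, e j ≠ e k} => e k := by
    rintro ⟨k, hk⟩ ⟨l, hl⟩ h
    rcases lt_trichotomy k l with h1 | h1 | h1
    · exact absurd h (hl k h1)
    · exact Subtype.ext h1
    · exact absurd h.symm (hk l h1)
  rw [← hinj.tsum_eq (f := G)]
  · have h := tsum_subtype {k : ℕ | ∀ j < k, e j ≠ e k} (fun k => G (e k))
    rw [h]
    refine tsum_congr fun k => ?_
    simp only [Set.indicator, Set.mem_ofPred_eq]
  · intro s hs
    by_contra hcon
    apply hs
    apply hG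
    rintro k rfl
    apply hcon
    have : ∃ l, e l = e k := ⟨k, rfl⟩
    refine ⟨⟨Nat.find this, fun j hj h => ?_⟩, Nat.find_spec this⟩
    exact Nat.find_min this hj (h.trans (Nat.find_spec this))

/-- the inequality on one orbit, real version -/
theorem orbit_real (hPAR : PARStmt) (p : FreeGroup Bool → ℝ) (hp : ∀ γ, 0 ≤ p γ)
    (hs : HasSum p 1) (a b : FreeGroup Bool) (ha : a = FreeGroup.of true)
    (hb : b = FreeGroup.of false) :
    open Classical in
    1 + 2 * (∑' γ, if p γ < p (a⁻¹ * γ) then p γ else 0) +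
      2 * (∑' γ, if p γ < p (b⁻¹ * γ) then p γ else 0) ≤
    2 * (∑' γ, if p (a * γ) < p γ then p γ else 0) +
      2 * (∑' γ, if p (b * γ) < p γ then p γ else 0) := by
  classical
  have key : ∀ c : FreeGroup Bool, ∑' γ, |p (c⁻¹ * γ) - p γ| =
      2 * (∑' γ, if p (c * γ) < p γ then p γ else 0) -
      2 * (∑' γ, if p γ < p (c⁻¹ * γ) then p γ else 0) := by
    intro c
    have hps := hs.summable
    have hpc : Summable fun γ => p (c⁻¹ * γ) := (Equiv.mulLeft c⁻¹).summable_iff.2 hps
    have e0 : ∑' γ, p (c⁻¹ * γ) = ∑' γ, p γ := (Equiv.mulLeft c⁻¹).tsum_eq p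
    have e1 : (∑' γ, if p (c * γ) < p γ then p γ else 0) =
        ∑' γ, if p γ < p (c⁻¹ * γ) then p (c⁻¹ * γ) else 0 := by
      rw [← (Equiv.mulLeft c⁻¹).tsum_eq fun γ => if p (c * γ) < p γ then p γ else 0]
      refine tsum_congr fun γ => ?_
      simp
    have s1 : Summable fun γ => if p γ < p (c⁻¹ * γ) then p (c⁻¹ * γ) else 0 :=
      Summable.of_nonneg_of_le (fun γ => by split_ifs <;> [exact hp _; exact le_rfl])
        (fun γ => by split_ifs <;> [exact le_rfl; exact hp _]) hpc
    have s2 : Summable fun γ => if p γ < p (c⁻¹ * γ) then p γ else 0 :=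
      Summable.of_nonneg_of_le (fun γ => by split_ifs <;> [exact hp _; exact le_rfl])
        (fun γ => by split_ifs <;> [exact le_rfl; exact hp _]) hps
    rw [e1, ← tsum_mul_left, ← tsum_mul_left, ← (s1.mul_left 2).tsum_sub (s2.mul_left 2)]
    have e2 : ∑' γ, (p γ - p (c⁻¹ * γ)) = 0 := by
      rw [hps.tsum_sub hpc, e0, sub_self]
    have s3 : Summable fun γ => p γ - p (c⁻¹ * γ) := hps.sub hpc
    have s4 : Summable fun γ => |p (c⁻¹ * γ) - p γ| := by
      have := s3.abs
      refine this.congr fun γ => abs_sub_comm _ _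
    rw [← add_zero (∑' γ, |p (c⁻¹ * γ) - p γ|), ← neg_zero, ← e2, ← tsum_neg,
      ← s4.tsum_add s3.neg]
    refine tsum_congr fun γ => ?_
    by_cases h : p γ < p (c⁻¹ * γ)
    · rw [if_pos h, if_pos h, abs_of_pos (sub_pos.2 h)]
      ring
    · rw [if_neg h, if_neg h, abs_of_nonpos (sub_nonpos.2 (not_lt.1 h))]
      ring
  have h := hPAR p hp hs
  rw [← ha, ← hb, key a, key b] at h
  linarith

section

variable {A : Type} [MeasurableSpace A] [StandardBorelSpace A] (T : FreeGroup Bool → A → A)

theorem orbit_tsum (hmul : ∀ γ δ x, T (γ * δ) x = T γ (T δ x))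
    (h1 : ∀ x, T 1 x = x) (hfree : ∀ γ x, T γ x = x → γ = 1) (κ : Measure A)
    [IsProbabilityMeasure κ] (x0 : A) (hx0 : κ {x | ¬ ∃ γ, T γ x0 = x} = 0) (B : Set A) :
    (κ B).toReal = ∑' γ, open Classical in if T γ x0 ∈ B then (κ {T γ x0}).toReal else 0 := by
  classical
  have hinj : Function.Injective fun γ => T γ x0 := by
    intro γ δ h
    have h2 : T (δ⁻¹ * γ) x0 = x0 := by
      rw [hmul]
      simp only at h
      rw [h, ← hmul, inv_mul_cancel, h1]
    have h3 := hfree _ _ h2
    rw [inv_mul_eq_one] at h3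
    exact h3.symm
  have h : κ B = ∑' γ, κ (if T γ x0 ∈ B then {T γ x0} else ∅) := by
    rw [← measure_iUnion]
    · refine measure_congr ?_
      have : ∀ᵐ x ∂κ, ∃ γ, T γ x0 = x := by
        rw [ae_iff]
        exact hx0
      filter_upwards [this] with x hx
      obtain ⟨γ, rfl⟩ := hx
      refine propext ?_
      change T γ x0 ∈ B ↔ T γ x0 ∈ ⋃ δ, if T δ x0 ∈ B then {T δ x0} else ∅
      rw [Set.mem_iUnion]
      constructor
      · intro hB
        exact ⟨γ, by rw [if_pos hB]; rfl⟩
      · rintro ⟨δ, hδ⟩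
        split_ifs at hδ with hd
        · rw [Set.mem_singleton_iff] at hδ
          rw [hδ]
          exact hd
        · exact absurd hδ (Set.notMem_empty _)
    · intro γ δ hne
      simp only [Function.onFun]
      rw [Set.disjoint_left]
      intro x hx hx'
      split_ifs at hx with h3
      · split_ifs at hx' with h4
        · rw [Set.mem_singleton_iff] at hx hx'
          exact hne (hinj (hx.symm.trans hx'))
        · exact hx'
      · exact hx
    · intro γ
      split_ifs
      · exact measurableSet_singleton _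
      · exact MeasurableSet.empty
  rw [h, ENNReal.tsum_toReal_eq]
  · refine tsum_congr fun γ => ?_
    split_ifs
    · rfl
    · simp
  · intro γ
    exact measure_ne_top _ _

theorem orbit_meas (hPAR : PARStmt) (hmul : ∀ γ δ x, T (γ * δ) x = T γ (T δ x))
    (h1 : ∀ x, T 1 x = x) (hfree : ∀ γ x, T γ x = x → γ = 1) (κ : Measure A)
    [IsProbabilityMeasure κ] (x0 : A) (hx0 : κ {x | ¬ ∃ γ, T γ x0 = x} = 0)
    (a b : FreeGroup Bool) (ha : a = FreeGroup.of true) (hb : b = FreeGroup.of false) :
    1 + 2 * κ {x | κ {x} < κ {T a⁻¹ x}} + 2 * κ {x | κ {x} < κ {T b⁻¹ x}} ≤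
      2 * κ {x | κ {T a x} < κ {x}} + 2 * κ {x | κ {T b x} < κ {x}} := by
  classical
  let p : FreeGroup Bool → ℝ := fun γ => (κ {T γ x0}).toReal
  have hp : ∀ γ, 0 ≤ p γ := fun γ => ENNReal.toReal_nonneg
  have ht : ∀ B, (κ B).toReal = ∑' γ, if T γ x0 ∈ B then p γ else 0 :=
    orbit_tsum T hmul h1 hfree κ x0 hx0
  have h1' : ∑' γ, p γ = 1 := by
    have := ht Set.univ
    simp only [measure_univ, ENNReal.toReal_one, Set.mem_univ, if_true] at this
    exact this.symm
  have hs : HasSum p 1 := by
    rw [← h1']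
    refine Summable.hasSum ?_
    by_contra hns
    rw [tsum_eq_zero_of_not_summable hns] at h1'
    exact zero_ne_one h1'
  have hlt : ∀ u v : A, (κ {u} < κ {v}) ↔ (κ {u}).toReal < (κ {v}).toReal := fun u v =>
    (ENNReal.toReal_lt_toReal (measure_ne_top _ _) (measure_ne_top _ _)).symm
  have hA : ∀ c : FreeGroup Bool, (κ {x | κ {x} < κ {T c⁻¹ x}}).toReal =
      ∑' γ, if p γ < p (c⁻¹ * γ) then p γ else 0 := by
    intro c
    rw [ht]
    refine tsum_congr fun γ => ?_
    have : (T γ x0 ∈ {x | κ {x} < κ {T c⁻¹ x}}) ↔ p γ < p (c⁻¹ * γ) := by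
      change κ {T γ x0} < κ {T c⁻¹ (T γ x0)} ↔ _
      rw [← hmul, hlt]
    simp only [this]
  have hB : ∀ c : FreeGroup Bool, (κ {x | κ {T c x} < κ {x}}).toReal =
      ∑' γ, if p (c * γ) < p γ then p γ else 0 := by
    intro c
    rw [ht]
    refine tsum_congr fun γ => ?_
    have : (T γ x0 ∈ {x | κ {T c x} < κ {x}}) ↔ p (c * γ) < p γ := by
      change κ {T c (T γ x0)} < κ {T γ x0} ↔ _
      rw [← hmul, hlt]
    simp only [this]
  have h := orbit_real hPAR p hp hs a b ha hb
  rw [← hA a, ← hA b, ← hB a, ← hB b] at h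
  have f : ∀ B : Set A, κ B ≠ ⊤ := fun B => measure_ne_top _ _
  have e2 : ∀ B : Set A, (2 * κ B) ≠ ⊤ := fun B => ENNReal.mul_ne_top (by norm_num) (f B)
  rw [← ENNReal.toReal_le_toReal]
  · rw [ENNReal.toReal_add (ENNReal.add_ne_top.2 ⟨ENNReal.one_ne_top, e2 _⟩) (e2 _),
      ENNReal.toReal_add ENNReal.one_ne_top (e2 _), ENNReal.toReal_add (e2 _) (e2 _),
      ENNReal.toReal_mul, ENNReal.toReal_mul, ENNReal.toReal_mul, ENNReal.toReal_mul,
      ENNReal.toReal_one]
    simpa using h
  · exact ENNReal.add_ne_top.2 ⟨ENNReal.add_ne_top.2 ⟨ENNReal.one_ne_top, e2 _⟩, e2 _⟩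
  · exact ENNReal.add_ne_top.2 ⟨e2 _, e2 _⟩

end

section

variable {M A : Type} [MeasurableSpace M] [MeasurableSpace A]
  (hdiag : MeasurableSet {p : M × M | p.1 = p.2}) (e : ℕ → M → M) (he : ∀ k, Measurable (e k))

include hdiag he

theorem meas_first {t : A → M} (ht : Measurable t) (k : ℕ) :
    MeasurableSet {x : A | ∀ j < k, e j (t x) ≠ e k (t x)} := by
  have : {x : A | ∀ j < k, e j (t x) ≠ e k (t x)} =
      ⋂ j : ℕ, ⋂ _ : j < k, {x | (e j (t x), e k (t x)) ∈ {p : M × M | p.1 = p.2}}ᶜ := by
    ext x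
    simp
  rw [this]
  refine MeasurableSet.iInter fun j => MeasurableSet.iInter fun _ => ?_
  exact (((he j).comp ht).prodMk ((he k).comp ht) hdiag).compl

theorem meas_tsum {t : A → M} (ht : Measurable t) (G : M × A → ℝ≥0∞) (hG : Measurable G)
    (h0 : ∀ s x, (∀ k, e k (t x) ≠ s) → G (s, x) = 0) :
    Measurable fun x => ∑' s, G (s, x) := by
  classical
  have : (fun x => ∑' s, G (s, x)) = fun x => ∑' k,
      if ∀ j < k, e j (t x) ≠ e k (t x) then G (e k (t x), x) else 0 := by
    funext x
    rw [← tsum_first (fun k => e k (t x)) (fun s => G (s, x)) (fun s hs => h0 s x hs)]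
  rw [this]
  refine Measurable.tsum fun k => ?_
  exact Measurable.ite (meas_first hdiag e he ht k) (hG.comp (((he k).comp ht).prodMk
    measurable_id)) measurable_const

theorem rho_exists (μ : Measure A) [IsProbabilityMeasure μ] {θ : A → M} (hθ : Measurable θ)
    (L : M → M → ℝ) (hL : Measurable fun p : M × M => L p.1 p.2) (hL0 : ∀ x y, 0 ≤ L x y)
    (hLE : ∀ y s, (∀ k, e k y ≠ s) → L y s = 0) (hL1 : ∀ x, HasSum (L x) 1) :
    ∃ ρ : Measure (M × A), IsProbabilityMeasure ρ ∧ ∀ P, MeasurableSet P →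
      ρ P = ∫⁻ x, (∑' s, open Classical in
        if (s, x) ∈ P then ENNReal.ofReal (L (θ x) s) else 0) ∂μ := by
  classical
  let w : ℕ → A → ℝ≥0∞ := fun k x => if ∀ j < k, e j (θ x) ≠ e k (θ x) then
    ENNReal.ofReal (L (θ x) (e k (θ x))) else 0
  have hw : ∀ k, Measurable (w k) := fun k =>
    Measurable.ite (meas_first hdiag e he hθ k)
      (ENNReal.measurable_ofReal.comp (hL.comp (hθ.prodMk ((he k).comp hθ)))) measurable_const
  let ηf : A → Measure M := fun x => Measure.sum fun k => w k x • Measure.dirac (e k (θ x))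
  have hηB : ∀ (x : A) (B : Set M), MeasurableSet B → ηf x B = ∑' s,
      if s ∈ B then ENNReal.ofReal (L (θ x) s) else 0 := by
    intro x B hB
    change (Measure.sum fun k => w k x • Measure.dirac (e k (θ x))) B = _
    rw [Measure.sum_apply _ hB, ← tsum_first (fun k => e k (θ x))
      (fun s => if s ∈ B then ENNReal.ofReal (L (θ x) s) else 0)]
    · refine tsum_congr fun k => ?_
      rw [Measure.smul_apply, Measure.dirac_apply' _ hB, smul_eq_mul]
      simp only [w, Set.indicator, Pi.one_apply]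
      by_cases h1 : ∀ j < k, e j (θ x) ≠ e k (θ x)
      · rw [if_pos h1, if_pos h1]
        by_cases h2 : e k (θ x) ∈ B
        · rw [if_pos h2, if_pos h2, mul_one]
        · rw [if_neg h2, if_neg h2, mul_zero]
      · rw [if_neg h1, if_neg h1, zero_mul]
    · intro s hs
      rw [hLE _ _ hs, ENNReal.ofReal_zero, ite_self]
  have hηm : Measurable ηf := by
    refine Measure.measurable_of_measurable_coe _ fun B hB => ?_
    have : (fun x => ηf x B) = fun x => ∑' s, (fun p : M × A => if p.1 ∈ B then
        ENNReal.ofReal (L (θ p.2) p.1) else 0) (s, x) := by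
      funext x
      exact hηB x B hB
    rw [this]
    refine meas_tsum hdiag e he hθ (fun p : M × A => if p.1 ∈ B then
        ENNReal.ofReal (L (θ p.2) p.1) else 0) ?_ ?_
    · exact Measurable.ite (measurable_fst hB) (ENNReal.measurable_ofReal.comp
        (hL.comp ((hθ.comp measurable_snd).prodMk measurable_fst))) measurable_const
    · intro s x hs
      simp only [hLE _ _ hs, ENNReal.ofReal_zero, ite_self]
  let η : ProbabilityTheory.Kernel A M := ⟨ηf, hηm⟩
  have hη1 : ∀ x, IsProbabilityMeasure (η x) := by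
    intro x
    refine ⟨?_⟩
    change ηf x Set.univ = 1
    rw [hηB x _ MeasurableSet.univ]
    simp only [Set.mem_univ, if_true]
    rw [← ENNReal.ofReal_tsum_of_nonneg (hL0 _) (hL1 _).summable, (hL1 _).tsum_eq,
      ENNReal.ofReal_one]
  have : ProbabilityTheory.IsMarkovKernel η := ⟨hη1⟩
  refine ⟨(μ.compProd η).map Prod.swap, ?_, ?_⟩
  · exact Measure.isProbabilityMeasure_map measurable_swap.aemeasurable
  · intro P hP
    rw [Measure.map_apply measurable_swap hP, Measure.compProd_apply (measurable_swap hP)]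
    refine lintegral_congr fun x => ?_
    change ηf x _ = _
    rw [hηB x]
    · rfl
    · exact (measurable_swap hP).preimage measurable_prodMk_left

end

end NONaux

open NONaux in
/-- NON -/
theorem non (hPAR : PARStmt) : NONStmt := by
  classical
  rintro M _ E hE hdiag ⟨e, he, hEe⟩ ⟨L, hLm, hL0, hLE, hL1, hLt⟩ A _ _ μ _ T h1 hmul hT hfree
    ⟨θ, hθ, hred⟩
  have hTm : ∀ γ, Measurable (T γ) := fun γ => (hT γ).measurable
  have hnA : Nonempty A := nonempty_of_isProbabilityMeasure μ
  have hcancel : ∀ γ x, T γ⁻¹ (T γ x) = x := fun γ x => by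
    rw [← hmul, inv_mul_cancel, h1]
  have hEθ : ∀ γ x, E (θ (T γ x)) (θ x) := fun γ x =>
    hE.symm ((hred x (T γ x)).1 ⟨γ, rfl⟩)
  have hclass : ∀ y s, (∀ k, e k y ≠ s) → ¬ E y s := fun y s h hEys => by
    obtain ⟨k, hk⟩ := (hEe y s).1 hEys
    exact h k hk
  have hclass' : ∀ n y s, (∀ k, e k y ≠ s) → L n y s = 0 := fun n y s h =>
    hLE n y s (hclass y s h)
  have hsum1 : ∀ n y, ∑' s, ENNReal.ofReal (L n y s) = 1 := fun n y => by
    rw [← ENNReal.ofReal_tsum_of_nonneg (hL0 n _) (hL1 n _).summable, (hL1 n _).tsum_eq,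
      ENNReal.ofReal_one]
  have habs0 : ∀ n γ s x, (∀ k, e k (θ x) ≠ s) →
      |L n (θ (T γ⁻¹ x)) s - L n (θ x) s| = 0 := by
    intro n γ s x hs
    rw [hclass' n _ s hs, hLE n (θ (T γ⁻¹ x)) s, sub_zero, abs_zero]
    intro h
    exact hclass _ _ hs (hE.trans (hE.symm (hEθ γ⁻¹ x)) h)
  let D : FreeGroup Bool → ℕ → A → ℝ≥0∞ := fun γ n x =>
    ∑' s, ENNReal.ofReal |L n (θ (T γ⁻¹ x)) s - L n (θ x) s|
  have hDm : ∀ γ n, Measurable (D γ n) := by
    intro γ n
    refine meas_tsum hdiag e he hθ
      (fun p : M × A => ENNReal.ofReal |L n (θ (T γ⁻¹ p.2)) p.1 - L n (θ p.2) p.1|) ?_ ?_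
    · refine ENNReal.measurable_ofReal.comp ?_
      refine (Measurable.sub ?_ ?_).abs
      · exact (hLm n).comp ((hθ.comp ((hTm _).comp measurable_snd)).prodMk measurable_fst)
      · exact (hLm n).comp ((hθ.comp measurable_snd).prodMk measurable_fst)
    · intro s x hs
      simp only [habs0 n γ s x hs, ENNReal.ofReal_zero]
  -- the main inequality
  have main : ∀ n, 1 ≤ 2 * ∫⁻ x, D (FreeGroup.of true) n x ∂μ +
      2 * ∫⁻ x, D (FreeGroup.of false) n x ∂μ := by
    intro n
    obtain ⟨ρ, hρ1, hρ⟩ := rho_exists hdiag e he μ hθ (L n) (hLm n) (hL0 n) (hclass' n) (hL1 n)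
    have hFP : ∀ P : Set (M × A), MeasurableSet P → Measurable fun x => ∑' s,
        if (s, x) ∈ P then ENNReal.ofReal (L n (θ x) s) else 0 := by
      intro P hP
      refine meas_tsum hdiag e he hθ (fun p : M × A =>
        if p ∈ P then ENNReal.ofReal (L n (θ p.2) p.1) else 0) ?_ ?_
      · exact Measurable.ite hP (ENNReal.measurable_ofReal.comp ((hLm n).comp
          ((hθ.comp measurable_snd).prodMk measurable_fst))) measurable_const
      · intro s x hs
        simp only [hclass' n _ s hs, ENNReal.ofReal_zero, ite_self]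
    -- shifting by a group element
    have shiftρ : ∀ γ (P : Set (M × A)), MeasurableSet P →
        ρ {p | (p.1, T γ p.2) ∈ P} ≤ ρ P + ∫⁻ x, D γ n x ∂μ := by
      intro γ P hP
      have hPγ : MeasurableSet {p : M × A | (p.1, T γ p.2) ∈ P} :=
        (measurable_fst.prodMk ((hTm γ).comp measurable_snd)) hP
      let F : A → ℝ≥0∞ := fun x => ∑' s,
        if (s, x) ∈ P then ENNReal.ofReal (L n (θ (T γ⁻¹ x)) s) else 0
      have hF : Measurable F := by
        refine meas_tsum hdiag e he (hθ.comp (hTm γ⁻¹)) (fun p : M × A =>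
          if p ∈ P then ENNReal.ofReal (L n (θ (T γ⁻¹ p.2)) p.1) else 0) ?_ ?_
        · exact Measurable.ite hP (ENNReal.measurable_ofReal.comp ((hLm n).comp
            ((hθ.comp ((hTm _).comp measurable_snd)).prodMk measurable_fst))) measurable_const
        · intro s x hs
          simp only [Function.comp] at hs
          simp only [hclass' n _ s hs, ENNReal.ofReal_zero, ite_self]
      calc ρ {p | (p.1, T γ p.2) ∈ P} = ∫⁻ x, F (T γ x) ∂μ := by
            rw [hρ _ hPγ]
            refine lintegral_congr fun x => ?_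
            simp only [F, hcancel]
            rfl
        _ = ∫⁻ x, F x ∂μ := (hT γ).lintegral_comp hF
        _ ≤ ∫⁻ x, ((∑' s, if (s, x) ∈ P then ENNReal.ofReal (L n (θ x) s) else 0) +
              D γ n x) ∂μ := by
            refine lintegral_mono fun x => ?_
            simp only [F, D]
            rw [← ENNReal.tsum_add]
            refine ENNReal.tsum_le_tsum fun s => ?_
            by_cases hs : (s, x) ∈ P
            · rw [if_pos hs, if_pos hs, ← ENNReal.ofReal_add (hL0 n _ _) (abs_nonneg _)]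
              refine ENNReal.ofReal_le_ofReal ?_
              have := le_abs_self (L n (θ (T γ⁻¹ x)) s - L n (θ x) s)
              linarith
            · rw [if_neg hs, if_neg hs]
              exact bot_le
        _ = ρ P + ∫⁻ x, D γ n x ∂μ := by
            rw [lintegral_add_left (hFP P hP), hρ P hP]
    let κ : ProbabilityTheory.Kernel M A := ρ.condKernel
    have hpt : ∀ u : A → A, Measurable u → Measurable fun p : M × A => κ p.1 {u p.2} := by
      intro u hu
      have ht : MeasurableSet {q : (M × A) × A | q.2 = u q.1.2} :=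
        measurableSet_eq_fun measurable_snd (hu.comp (measurable_snd.comp measurable_fst))
      have := ProbabilityTheory.Kernel.measurable_kernel_prodMk_left
        (κ := ProbabilityTheory.Kernel.prodMkRight A κ) ht
      exact this
    let Q : FreeGroup Bool → Set (M × A) := fun c => {p | κ p.1 {p.2} < κ p.1 {T c⁻¹ p.2}}
    have hQ : ∀ c, MeasurableSet (Q c) := fun c =>
      measurableSet_lt (hpt _ measurable_id) (hpt _ (hTm _))
    let Q' : FreeGroup Bool → Set (M × A) := fun c => {p | κ p.1 {T c p.2} < κ p.1 {p.2}}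
    have hQ' : ∀ c, MeasurableSet (Q' c) := fun c =>
      measurableSet_lt (hpt _ (hTm _)) (hpt _ measurable_id)
    have hQQ : ∀ c, Q' c = {p | (p.1, T c p.2) ∈ Q c} := by
      intro c
      ext p
      simp only [Q, Q', Set.mem_ofPred_eq, hcancel]
    have hG : MeasurableSet {p : M × A | E (θ p.2) p.1} := by
      have : {p : M × A | E (θ p.2) p.1} = ⋃ k, {p | (e k (θ p.2), p.1) ∈
          {q : M × M | q.1 = q.2}} := by
        ext p
        simp only [Set.mem_ofPred_eq, Set.mem_iUnion]
        exact hEe _ _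
      rw [this]
      exact MeasurableSet.iUnion fun k =>
        (((he k).comp (hθ.comp measurable_snd)).prodMk measurable_fst) hdiag
    have hρG : ρ ({p : M × A | E (θ p.2) p.1}ᶜ) = 0 := by
      rw [hρ _ hG.compl, lintegral_eq_zero_iff']
      · refine Filter.Eventually.of_forall fun x => ?_
        simp only [Pi.zero_apply, ENNReal.tsum_eq_zero]
        intro s
        split_ifs with h
        · rw [hLE n _ _ h, ENNReal.ofReal_zero]
        · rfl
      · exact (hFP _ hG.compl).aemeasurable
    have hae : ∀ᵐ s ∂ρ.fst, κ s {x | ¬ E (θ x) s} = 0 := by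
      have h := Measure.lintegral_condKernel_mem (ρ := ρ) hG.compl
      rw [hρG] at h
      have hm : Measurable fun s => ρ.condKernel s {x | (s, x) ∈ {p : M × A | E (θ p.2) p.1}ᶜ} :=
        ProbabilityTheory.Kernel.measurable_kernel_prodMk_left hG.compl
      exact (lintegral_eq_zero_iff hm).1 h
    have hfib : ∀ᵐ s ∂ρ.fst,
        1 + 2 * κ s {x | (s, x) ∈ Q (FreeGroup.of true)} +
          2 * κ s {x | (s, x) ∈ Q (FreeGroup.of false)} ≤
        2 * κ s {x | (s, x) ∈ Q' (FreeGroup.of true)} +
          2 * κ s {x | (s, x) ∈ Q' (FreeGroup.of false)} := by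
      filter_upwards [hae] with s hs
      have hex : ∃ x0, E (θ x0) s := by
        by_contra hcon
        push Not at hcon
        have : {x | ¬ E (θ x) s} = Set.univ := Set.eq_univ_of_forall hcon
        rw [this, measure_univ] at hs
        exact one_ne_zero hs
      obtain ⟨x0, hx0⟩ := hex
      have hsub : κ s {x | ¬ ∃ γ, T γ x0 = x} = 0 := by
        refine measure_mono_null ?_ hs
        intro x hx hE'
        exact hx ((hred x0 x).2 (hE.trans hx0 (hE.symm hE')))
      exact orbit_meas T hPAR hmul h1 hfree (κ s) x0 hsub _ _ rfl rfl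
    have hint := lintegral_mono_ae hfib
    have hκm : ∀ R : Set (M × A), MeasurableSet R → Measurable fun s => κ s {x | (s, x) ∈ R} :=
      fun R hR => ProbabilityTheory.Kernel.measurable_kernel_prodMk_left hR
    have hκi : ∀ R : Set (M × A), MeasurableSet R →
        ∫⁻ s, κ s {x | (s, x) ∈ R} ∂ρ.fst = ρ R :=
      fun R hR => Measure.lintegral_condKernel_mem hR
    rw [lintegral_add_right _ ((hκm _ (hQ _)).const_mul _),
      lintegral_add_right _ ((hκm _ (hQ _)).const_mul _),
      lintegral_add_right _ ((hκm _ (hQ' _)).const_mul _),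
      lintegral_const_mul _ (hκm _ (hQ _)), lintegral_const_mul _ (hκm _ (hQ _)),
      lintegral_const_mul _ (hκm _ (hQ' _)), lintegral_const_mul _ (hκm _ (hQ' _)),
      hκi _ (hQ _), hκi _ (hQ _), hκi _ (hQ' _), hκi _ (hQ' _), lintegral_const,
      measure_univ, mul_one, hQQ, hQQ] at hint
    have i1 := shiftρ (FreeGroup.of true) _ (hQ (FreeGroup.of true))
    have i2 := shiftρ (FreeGroup.of false) _ (hQ (FreeGroup.of false))
    set u := ρ (Q (FreeGroup.of true)) with hu
    set v := ρ (Q (FreeGroup.of false)) with hv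
    have hufin : 2 * u + 2 * v ≠ ⊤ := by
      refine ENNReal.add_ne_top.2 ⟨ENNReal.mul_ne_top (by norm_num) (measure_ne_top _ _),
        ENNReal.mul_ne_top (by norm_num) (measure_ne_top _ _)⟩
    have i3 : 1 + (2 * u + 2 * v) ≤ (2 * ∫⁻ x, D (FreeGroup.of true) n x ∂μ +
        2 * ∫⁻ x, D (FreeGroup.of false) n x ∂μ) + (2 * u + 2 * v) := by
      calc 1 + (2 * u + 2 * v) = 1 + 2 * u + 2 * v := by ring
        _ ≤ _ := hint
        _ ≤ 2 * (u + ∫⁻ x, D (FreeGroup.of true) n x ∂μ) +
            2 * (v + ∫⁻ x, D (FreeGroup.of false) n x ∂μ) := by gcongr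
        _ = _ := by ring
    exact (ENNReal.add_le_add_iff_right hufin).1 i3
  -- convergence
  have hconv : ∀ γ, Tendsto (fun n => ∫⁻ x, D γ n x ∂μ) atTop (𝓝 0) := by
    intro γ
    have h := tendsto_lintegral_of_dominated_convergence (μ := μ) (F := D γ)
      (f := fun _ => 0) (fun _ => 2) (hDm γ) ?_ ?_ ?_
    · simpa using h
    · intro n
      refine Filter.Eventually.of_forall fun x => ?_
      calc D γ n x ≤ ∑' s, (ENNReal.ofReal (L n (θ (T γ⁻¹ x)) s) +
            ENNReal.ofReal (L n (θ x) s)) := by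
            refine ENNReal.tsum_le_tsum fun s => ?_
            rw [← ENNReal.ofReal_add (hL0 n _ _) (hL0 n _ _)]
            refine ENNReal.ofReal_le_ofReal ?_
            have h3 := hL0 n (θ (T γ⁻¹ x)) s
            have h4 := hL0 n (θ x) s
            rw [abs_le]
            constructor <;> linarith
        _ = 2 := by
            rw [ENNReal.tsum_add, hsum1, hsum1]
            norm_num
    · rw [lintegral_const, measure_univ, mul_one]
      norm_num
    · refine Filter.Eventually.of_forall fun x => ?_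
      have h5 := hLt (θ (T γ⁻¹ x)) (θ x) (hEθ γ⁻¹ x)
      have h6 : (fun n => D γ n x) = fun n => ENNReal.ofReal
          (∑' s, |L n (θ (T γ⁻¹ x)) s - L n (θ x) s|) := by
        funext n
        simp only [D]
        rw [ENNReal.ofReal_tsum_of_nonneg (fun s => abs_nonneg _)]
        exact ((hL1 n _).summable.sub (hL1 n _).summable).abs
      rw [h6]
      have h7 := (ENNReal.continuous_ofReal.tendsto 0).comp h5
      rw [ENNReal.ofReal_zero] at h7
      exact h7
  have hlim : Tendsto (fun n => 2 * ∫⁻ x, D (FreeGroup.of true) n x ∂μ +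
      2 * ∫⁻ x, D (FreeGroup.of false) n x ∂μ) atTop (𝓝 0) := by
    have ha := ENNReal.Tendsto.const_mul (a := 2) (hconv (FreeGroup.of true))
      (Or.inr (by norm_num))
    have hb := ENNReal.Tendsto.const_mul (a := 2) (hconv (FreeGroup.of false))
      (Or.inr (by norm_num))
    have := ha.add hb
    simpa using this
  have := ge_of_tendsto' hlim main
  exact absurd this (by norm_num)

end MS
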