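import Pool.Agent.H27.MS.Defs

/-!
Statements of the modules.
-/

namespace MS

open TopologicalSpace MeasureTheory Filter Topology

/-- nonempty compact subsets of `ℕ^ℤ` -/
abbrev NC : Type := NonemptyCompacts (ℤ → ℕ)

/-- the shift by `n` -/
def sh (n : ℤ) (x : ℤ → ℕ) : ℤ → ℕ := fun i => x (i + n)

/-- `f : X → Y` and `g : Y → X` are mutually inverse conjugacies given by block codes of
radius `r` -/
structure IsConj (X Y : NC) (f g : (ℤ → ℕ) → (ℤ → ℕ)) (r : ℕ) : Prop where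
  maps : ∀ x ∈ X, f x ∈ Y
  maps' : ∀ y ∈ Y, g y ∈ X
  left : ∀ x ∈ X, g (f x) = x
  right : ∀ y ∈ Y, f (g y) = y
  comm : ∀ x ∈ X, ∀ n : ℤ, f (sh n x) = sh n (f x)
  comm' : ∀ y ∈ Y, ∀ n : ℤ, g (sh n y) = sh n (g y)
  rad : ∀ x ∈ X, ∀ x' ∈ X, ∀ i : ℤ, (∀ j : ℤ, |j - i| ≤ r → x j = x' j) → f x i = f x' i
  rad' : ∀ y ∈ Y, ∀ y' ∈ Y, ∀ i : ℤ, (∀ j : ℤ, |j - i| ≤ r → y j = y' j) → g y i = g y' i

/-- `f` acts blockwise between visits to `C` -/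
def Loc (f : (ℤ → ℕ) → (ℤ → ℕ)) (X : NC) (C : Set (ℤ → ℕ)) : Prop :=
  ∀ x ∈ X, ∀ x' ∈ X, ∀ n : ℕ, x ∈ C → x' ∈ C → sh n x ∈ C → sh n x' ∈ C →
    (∀ i : ℤ, 0 ≤ i → i < n → x i = x' i) → ∀ i : ℤ, 0 ≤ i → i < n → f x i = f x' i

/-- all subshifts `Y` over the alphabet `{0, …, N-1}` which are conjugate to `X` by codes acting
blockwise between visits to `C` -/
def PS (N : ℕ) (X : NC) (C : Set (ℤ → ℕ)) : Set NC :=
  {Y | (∀ y ∈ Y, ∀ i, y i < N) ∧ ∃ f g r, IsConj X Y f g r ∧ Loc f X C ∧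
    Loc g Y (f '' ((X : Set (ℤ → ℕ)) ∩ C))}

/-- cylinder around `x` -/
def cyl (m : ℕ) (x : ℤ → ℕ) : Set (ℤ → ℕ) := {y | ∀ i : ℤ, |i| ≤ m → y i = x i}

/-- the cylinders of depth `m` of `X` -/
def Cyl (X : NC) (m : ℕ) : Set (Set (ℤ → ℕ)) :=
  {C | ∃ x ∈ X, C = (X : Set (ℤ → ℕ)) ∩ cyl m x}

/-- uniform distribution on a finite set -/
noncomputable def unif (S : Set NC) (Y : NC) : ℝ :=
  open Classical in if Y ∈ S then ((S.ncard : ℝ))⁻¹ else 0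

/-- the Reiter functions at one level -/
noncomputable def lev (N m : ℕ) (X Y : NC) : ℝ :=
  ((Cyl X m).ncard : ℝ)⁻¹ * ∑ᶠ C ∈ Cyl X m, unif (PS N X C) Y

/-- the Reiter functions -/
noncomputable def Rei (N : ℕ) (X Y : NC) : ℝ :=
  (N : ℝ)⁻¹ * ∑ m ∈ Finset.range N, lev N (N + m) X Y

/-! ### the modules -/

/-- CHL: conjugacies are given by block codes -/
def CHLStmt : Prop :=
  (∀ X Y : NC, IsMinSubshift X → IsMinSubshift Y → (Conj X Y ↔ ∃ f g r, IsConj X Y f g r)) ∧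
  (∀ (X Y : NC) (f : (ℤ → ℕ) → (ℤ → ℕ)), IsMinSubshift X → ContinuousOn f X →
    (∀ x ∈ X, ∀ n : ℤ, f (sh n x) = sh n (f x)) → Set.InjOn f X → f '' X = Y →
    ∃ g r, IsConj X Y f g r)

/-- TRA: conjugates of minimal subshifts of entropy zero, composition and inverse -/
def TRAStmt : Prop :=
  (∀ X Y f g r, IsConj X Y f g r → IsMinSubshift X → IsMinSubshift Y) ∧
  (∀ X Y f g r, IsConj X Y f g r → IsMinSubshift X → ZeroEntropy X → ZeroEntropy Y) ∧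
  (∀ X Y f g r, IsConj X Y f g r → IsConj Y X g f r) ∧
  (∀ X Y Z f g r f' g' r', IsConj X Y f g r → IsConj Y Z f' g' r' →
    IsConj X Z (f' ∘ f) (g ∘ g') (r + r'))

/-- PSI: invariance and nontriviality of the sets `PS` -/
def PSIStmt : Prop :=
  (∀ N (X : NC) C, IsMinSubshift X → (∀ x ∈ X, ∀ i, x i < N) → X ∈ PS N X C) ∧
  (∀ N (X X' : NC) f g r C, IsMinSubshift X → IsConj X X' f g r → Loc f X C →
    Loc g X' (f '' ((X : Set (ℤ → ℕ)) ∩ C)) →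
    PS N X C = PS N X' (f '' ((X : Set (ℤ → ℕ)) ∩ C)))

/-- PSF: finiteness of the sets `PS` -/
def PSFStmt : Prop := ∀ N (X : NC) (C : Set (ℤ → ℕ)), IsMinSubshift X →
  (∃ U, IsOpen U ∧ (X : Set (ℤ → ℕ)) ∩ C = (X : Set (ℤ → ℕ)) ∩ U) →
  ((X : Set (ℤ → ℕ)) ∩ C).Nonempty → (PS N X C).Finite

/-- CYL: counting cylinders -/
def CYLStmt : Prop :=
  (∀ X m, (Cyl X m).Finite ∧ 1 ≤ (Cyl X m).ncard ∧
    (IsMinSubshift X → (Cyl X m).ncard ≤ (words X (2 * m + 1)).ncard)) ∧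
  (∀ X m k, (Cyl X m).ncard + (Cyl X m \ Cyl X (m + k)).ncard ≤ (Cyl X (m + k)).ncard) ∧
  (∀ X X' f g r m, IsConj X X' f g r → (Cyl X m).ncard ≤ (Cyl X' (m + r)).ncard)

/-- DEEP: conjugacies map most cylinders to cylinders and act blockwise -/
def DEEPStmt : Prop :=
  (∀ X X' f g r m C, IsConj X X' f g r → 2 * r ≤ m → C ∈ Cyl X m →
    Loc f X C ∧ Loc g X' (f '' ((X : Set (ℤ → ℕ)) ∩ C))) ∧
  (∀ X X' f g r m C, IsConj X X' f g r → C ∈ Cyl X m → C ∈ Cyl X (m + 2 * r) →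
    f '' C ∈ Cyl X' (m + r))

/-- AVG: an averaging lemma -/
def AVGStmt : Prop := ∀ q : ℕ → ℕ, Monotone q → (∀ m, 1 ≤ q m) →
  Tendsto (fun m : ℕ => Real.log (q m : ℝ) / m) atTop (𝓝 0) → ∀ k : ℕ,
  Tendsto (fun N : ℕ => (N : ℝ)⁻¹ * ∑ m ∈ Finset.range N,
    min 1 (((q (N + m + k) : ℝ) - q (N + m)) / q (N + m))) atTop (𝓝 0)

/-- REI: elementary properties of the functions `Rei` -/
def REIStmt : Prop := ∀ N (X : NC), 1 ≤ N → IsMinSubshift X → (∀ x ∈ X, ∀ i, x i < N) →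
  (∀ Y, 0 ≤ Rei N X Y) ∧ (∀ Y, Rei N X Y ≠ 0 → ∃ f g r, IsConj X Y f g r) ∧
  HasSum (Rei N X) 1

/-- INV: asymptotic invariance -/
def INVStmt : Prop := ∀ (X X' : NC) f g r, IsMinSubshift X → ZeroEntropy X →
  IsConj X X' f g r → Tendsto (fun N => ∑' Y, |Rei N X Y - Rei N X' Y|) atTop (𝓝 0)

/-- COD: countably many block codes suffice -/
def CODStmt : Prop := ∃ Φ : ℕ → (ℤ → ℕ) → (ℤ → ℕ), (∀ k, Continuous (Φ k)) ∧
  (∀ k x (n : ℤ), Φ k (sh n x) = sh n (Φ k x)) ∧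
  (∀ X Y f g r, IsMinSubshift X → IsConj X Y f g r → ∃ k, ∀ x ∈ X, Φ k x = f x)

/-- VIE: measurable sets of compact sets: conditions on pairs of points, injectivity of a code -/
def VIEStmt : Prop :=
  (∀ O : Set ((ℤ → ℕ) × (ℤ → ℕ)), IsOpen O →
    IsOpen {X : NC | ∃ x ∈ X, ∃ x' ∈ X, (x, x') ∈ O}) ∧
  (∀ Φ : (ℤ → ℕ) → (ℤ → ℕ), Continuous Φ → (∀ x (n : ℤ), Φ (sh n x) = sh n (Φ x)) →
    MeasurableSet {X : {X : NC // IsMinSubshift X} | Set.InjOn Φ (X : NC)})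

/-- MEA: measurability of the Reiter functions -/
def MEAStmt : Prop := ∀ N : ℕ,
  MeasurableSet {X : NC | ∀ x ∈ X, ∀ i, x i < N} ∧
  Measurable fun p : {X : NC // IsMinSubshift X ∧ ∀ x ∈ X, ∀ i, x i < N} × NC =>
    Rei N p.1 p.2

/-- ENU: the classes are enumerated by measurable maps -/
def ENUStmt : Prop := ∃ e : ℕ → Z0 → Z0, (∀ k, Measurable (e k)) ∧
  ∀ X Y : Z0, Conj X Y ↔ ∃ k, e k X = Y

/-- FRA: a free measure preserving action of a free group -/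
def FRAStmt : Prop :=
  ∃ (A : Type) (_ : MeasurableSpace A) (_ : StandardBorelSpace A) (μ : Measure A)
    (_ : IsProbabilityMeasure μ) (T : FreeGroup Bool → A → A),
    (∀ x, T 1 x = x) ∧ (∀ γ δ x, T (γ * δ) x = T γ (T δ x)) ∧
    (∀ γ, MeasurePreserving (T γ) μ μ) ∧ (∀ γ x, T γ x = x → γ = 1)

/-- PAR: the paradoxical inequality -/
def PARStmt : Prop := ∀ κ : FreeGroup Bool → ℝ, (∀ γ, 0 ≤ κ γ) → HasSum κ 1 →
    1 ≤ ∑' γ, |κ ((FreeGroup.of true)⁻¹ * γ) - κ γ| +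
      ∑' γ, |κ ((FreeGroup.of false)⁻¹ * γ) - κ γ|

/-- NON: free measure preserving actions of the free group are not reducible to amenable
relations -/
def NONStmt : Prop := ∀ (M : Type) [MeasurableSpace M] (E : M → M → Prop), Equivalence E →
  MeasurableSet {p : M × M | p.1 = p.2} →
  (∃ e : ℕ → M → M, (∀ k, Measurable (e k)) ∧ ∀ x y, E x y ↔ ∃ k, e k x = y) →
  Amenable E →
  ∀ (A : Type) [MeasurableSpace A] [StandardBorelSpace A] (μ : Measure A)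
    [IsProbabilityMeasure μ] (T : FreeGroup Bool → A → A),
    (∀ x, T 1 x = x) → (∀ γ δ x, T (γ * δ) x = T γ (T δ x)) →
    (∀ γ, MeasurePreserving (T γ) μ μ) → (∀ γ x, T γ x = x → γ = 1) →
    ¬ BorelReducible (fun x y => ∃ γ, T γ x = y) E

end MS
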